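import Mathlib
import Pool.Agent.Results.MP_6d4084_an.LimsupEqK

/-!
# Factors of polynomials and weighted coefficient norms (helper83)

General weights: definitions, upper bound, lower bound by the choice of the phases.
-/

set_option autoImplicit false

open Polynomial Real MeasureTheory Filter Set Topology

namespace Pool.Agent.Y83.BF

open Pool.Agent.Results.MP_6d4084_an.LimsupEqK (diskNorm step exists_ge_circleAverage
  mahler_shift prod_roots_le norm_eval_eq_prod le_diskNorm exists_divisor)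

/-- The weighted supremum norm `max_{0 ≤ j ≤ n} |a_j| / c_j` of a polynomial of degree `n`. -/
noncomputable def wnorm (n : ℕ) (c : ℕ → ℝ) (p : ℂ[X]) : ℝ :=
  (Finset.range (n + 1)).sup' Finset.nonempty_range_add_one (fun j => ‖p.coeff j‖ / c j)

/-- The supremum of `diskNorm q / N p` over the monic polynomials `p` of degree `n` and the monic
divisors `q` of `p`. -/
noncomputable def SN (n : ℕ) (N : ℂ[X] → ℝ) : ENNReal :=
  ⨆ (p : ℂ[X]) (q : ℂ[X]) (_ : p.Monic) (_ : p.natDegree = n) (_ : q.Monic) (_ : q ∣ p),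
    ENNReal.ofReal (diskNorm q / N p)

/-- `K(n,c)`: the Mahler measure of `∑_{j ≤ n} c_j |1 + x|^j`. -/
noncomputable def KW (n : ℕ) (c : ℕ → ℝ) : ℝ :=
  Real.exp (1 / (2 * π) * ∫ t in (0 : ℝ)..(2 * π),
    Real.log (∑ j ∈ Finset.range (n + 1), c j * ‖1 + Complex.exp (t * Complex.I)‖ ^ j))

noncomputable def ker (n : ℕ) (c : ℕ → ℝ) (w : ℂ) : ℝ :=
  ∑ j ∈ Finset.range (n + 1), c j * ‖1 + w‖ ^ j

theorem log_KW (n : ℕ) (c : ℕ → ℝ) :
    Real.log (KW n c) = circleAverage (fun w : ℂ => Real.log (ker n c w)) 0 1 := by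
  rw [KW, Real.log_exp, circleAverage_def, smul_eq_mul, one_div]
  congr 1
  apply intervalIntegral.integral_congr
  intro t _
  simp [circleMap, ker]

theorem KW_pos (n : ℕ) (c : ℕ → ℝ) : 0 < KW n c := Real.exp_pos _

theorem ker_pos {n : ℕ} {c : ℕ → ℝ} (hc : ∀ j ≤ n, 0 < c j) (w : ℂ) : 0 < ker n c w := by
  unfold ker
  have h0 : c 0 * ‖1 + w‖ ^ 0 ≤ ∑ j ∈ Finset.range (n + 1), c j * ‖1 + w‖ ^ j := by
    apply Finset.single_le_sum (f := fun j => c j * ‖1 + w‖ ^ j)
    · intro j hj
      have := hc j (Nat.lt_succ_iff.mp (Finset.mem_range.mp hj))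
      positivity
    · simp
  have := hc 0 (Nat.zero_le _)
  rw [pow_zero, mul_one] at h0
  linarith

theorem continuous_ker (n : ℕ) (c : ℕ → ℝ) : Continuous (ker n c) := by
  unfold ker
  fun_prop

theorem continuous_log_ker {n : ℕ} {c : ℕ → ℝ} (hc : ∀ j ≤ n, 0 < c j) :
    Continuous (fun w => Real.log (ker n c w)) :=
  (continuous_ker n c).log fun w => (ker_pos hc w).ne'

/-! ### Upper bound -/

theorem coeff_le {n : ℕ} {c : ℕ → ℝ} (hc : ∀ j ≤ n, 0 < c j) (p : ℂ[X]) {j : ℕ} (hj : j ≤ n) :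
    ‖p.coeff j‖ ≤ wnorm n c p * c j := by
  have h1 : ‖p.coeff j‖ / c j ≤ wnorm n c p :=
    Finset.le_sup' (fun j => ‖p.coeff j‖ / c j) (Finset.mem_range.mpr (Nat.lt_succ_of_le hj))
  rwa [div_le_iff₀ (hc j hj)] at h1

theorem wnorm_pos {n : ℕ} {c : ℕ → ℝ} (hc : ∀ j ≤ n, 0 < c j) {p : ℂ[X]} (hp : p.Monic)
    (hn : p.natDegree = n) : 0 < wnorm n c p := by
  have h1 := coeff_le hc p (le_refl n)
  have h2 : p.coeff n = 1 := by rw [← hn]; exact hp
  rw [h2, norm_one] at h1
  have := hc n le_rfl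
  by_contra h
  push Not at h
  nlinarith

theorem norm_eval_le {n : ℕ} {c : ℕ → ℝ} (hc : ∀ j ≤ n, 0 < c j) {p : ℂ[X]}
    (hn : p.natDegree = n) (z w : ℂ) (hz : ‖z‖ = 1) :
    ‖p.eval (z * (1 + w))‖ ≤ wnorm n c p * ker n c w := by
  rw [Polynomial.eval_eq_sum_range, hn]
  refine (norm_sum_le _ _).trans ?_
  rw [ker, Finset.mul_sum]
  apply Finset.sum_le_sum
  intro j hj
  rw [norm_mul, norm_pow, norm_mul, hz, one_mul]
  calc ‖p.coeff j‖ * ‖1 + w‖ ^ j ≤ (wnorm n c p * c j) * ‖1 + w‖ ^ j := by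
        gcongr
        exact coeff_le hc p (Nat.lt_succ_iff.mp (Finset.mem_range.mp hj))
    _ = _ := by ring

theorem mahler_shift_pos (p : ℂ[X]) (hp : p.Monic) (z : ℂ) (hz : ‖z‖ = 1) :
    1 ≤ (p.comp (C z * X + C z)).mahlerMeasure := by
  rw [mahler_shift p hp z hz]
  apply Multiset.one_le_prod
  intro a ha
  rw [Multiset.mem_map] at ha
  obtain ⟨α, _, rfl⟩ := ha
  exact le_max_left _ _

/-- the average of `log‖f‖` for a nonzero polynomial is at most that of a positive majorant -/
theorem avg_le_of_le {f : ℂ[X]} (hf : f ≠ 0) {G : ℂ → ℝ} (hG : Continuous G) (hGp : ∀ w, 0 < G w)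
    (h : ∀ w : ℂ, ‖w‖ = 1 → ‖f.eval w‖ ≤ G w) :
    circleAverage (fun w => Real.log ‖f.eval w‖) 0 1 ≤
      circleAverage (fun w => Real.log (G w)) 0 1 := by
  obtain ⟨w0, hw0, hmin⟩ := (isCompact_sphere (0 : ℂ) 1).exists_isMinOn
    ⟨1, by simp⟩ hG.continuousOn
  set m := G w0 with hm
  have hmp : 0 < m := hGp w0
  set Λ : ℝ := 1 / m with hΛ
  have hΛp : 0 < Λ := by positivity
  have hmf := mahlerMeasure_pos_of_ne_zero hf
  have e1 : circleAverage (fun w => Real.log ‖(C (Λ : ℂ) * f).eval w‖) 0 1 =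
      Real.log Λ + circleAverage (fun w => Real.log ‖f.eval w‖) 0 1 := by
    have h1 := logMahlerMeasure_def (C (Λ : ℂ) * f)
    have h2 := logMahlerMeasure_def f
    rw [← h1, ← h2, logMahlerMeasure_eq_log_MahlerMeasure, logMahlerMeasure_eq_log_MahlerMeasure,
      mahlerMeasure_mul, mahlerMeasure_const, Complex.norm_real, Real.norm_eq_abs, abs_of_pos hΛp,
      Real.log_mul hΛp.ne' hmf.ne']
  have hlc : Continuous (fun w => Real.log (G w)) := hG.log fun w => (hGp w).ne'
  have e2 : circleAverage (fun w => Real.log Λ + Real.log (G w)) 0 1 =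
      Real.log Λ + circleAverage (fun w => Real.log (G w)) 0 1 := by
    rw [circleAverage_fun_add (circleIntegrable_const _ _ _)
      hlc.continuousOn.circleIntegrable', circleAverage_const]
  have e3 : circleAverage (fun w => Real.log ‖(C (Λ : ℂ) * f).eval w‖) 0 1 ≤
      circleAverage (fun w => Real.log Λ + Real.log (G w)) 0 1 := by
    apply circleAverage_mono
    · exact (analyticOnNhd_id.aeval_polynomial _).meromorphicOn.circleIntegrable_log_norm
    · exact (continuous_const.add hlc).continuousOn.circleIntegrable'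
    · intro w hw
      have hw1 : ‖w‖ = 1 := by simpa using hw
      have hmw : m ≤ G w := hmin (by simpa using hw1)
      have h1 : 1 ≤ Λ * G w := by
        rw [hΛ, one_div, inv_mul_eq_div, le_div_iff₀ hmp, one_mul]
        exact hmw
      rw [← Real.log_mul hΛp.ne' (hGp w).ne']
      by_cases h0 : ‖(C (Λ : ℂ) * f).eval w‖ = 0
      · rw [h0, Real.log_zero]
        exact Real.log_nonneg h1
      · apply Real.log_le_log (lt_of_le_of_ne (norm_nonneg _) (Ne.symm h0))
        rw [eval_mul, eval_C, norm_mul, Complex.norm_real, Real.norm_eq_abs, abs_of_pos hΛp]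
        exact mul_le_mul_of_nonneg_left (h w hw1) hΛp.le
  linarith

theorem comp_ne_zero (p : ℂ[X]) (hp : p.Monic) (z : ℂ) (hz : ‖z‖ = 1) :
    p.comp (C z * X + C z) ≠ 0 := by
  intro h0
  have h3 := mahler_shift_pos p hp z hz
  rw [h0, mahlerMeasure_zero] at h3
  linarith

theorem mahler_le {n : ℕ} {c : ℕ → ℝ} (hc : ∀ j ≤ n, 0 < c j) {p : ℂ[X]} (hp : p.Monic)
    (hn : p.natDegree = n) (z : ℂ) (hz : ‖z‖ = 1) :
    (p.comp (C z * X + C z)).mahlerMeasure ≤ KW n c * wnorm n c p := by
  have hw := wnorm_pos hc hp hn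
  have hK := KW_pos n c
  have hpos : 0 < (p.comp (C z * X + C z)).mahlerMeasure :=
    lt_of_lt_of_le one_pos (mahler_shift_pos p hp z hz)
  rw [← Real.log_le_log_iff hpos (by positivity), ← logMahlerMeasure_eq_log_MahlerMeasure,
    logMahlerMeasure_def, Real.log_mul hK.ne' hw.ne', log_KW]
  refine (avg_le_of_le (comp_ne_zero p hp z hz) (G := fun w => wnorm n c p * ker n c w)
    (continuous_const.mul (continuous_ker n c)) (fun w => mul_pos hw (ker_pos hc w))
    (fun w _ => ?_)).trans (le_of_eq ?_)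
  · have := norm_eval_le hc hn z w hz
    rw [eval_comp]
    simp only [eval_add, eval_mul, eval_C, eval_X]
    rwa [show z * w + z = z * (1 + w) by ring]
  · have hl : (fun w : ℂ => Real.log (wnorm n c p * ker n c w)) =
        fun w => Real.log (ker n c w) + Real.log (wnorm n c p) := by
      funext w
      rw [Real.log_mul hw.ne' (ker_pos hc w).ne', add_comm]
    rw [hl, circleAverage_fun_add (continuous_log_ker hc).continuousOn.circleIntegrable'
      (circleIntegrable_const _ _ _), circleAverage_const]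

theorem norm_eval_le_circle {n : ℕ} {c : ℕ → ℝ} (hc : ∀ j ≤ n, 0 < c j) {p q : ℂ[X]}
    (hp : p.Monic) (hn : p.natDegree = n) (hq : q.Monic) (hqp : q ∣ p) (z : ℂ) (hz : ‖z‖ = 1) :
    ‖q.eval z‖ ≤ KW n c * wnorm n c p := by
  rw [norm_eval_eq_prod hq]
  refine le_trans ?_ (mahler_le hc hp hn z hz)
  rw [mahler_shift p hp z hz]
  refine le_trans ?_ (prod_roots_le hp hqp z)
  apply Multiset.prod_map_le_prod_map₀
  · intro a _
    exact norm_nonneg _
  · intro a _
    exact le_max_right _ _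

theorem diskNorm_le {n : ℕ} {c : ℕ → ℝ} (hc : ∀ j ≤ n, 0 < c j) {p q : ℂ[X]}
    (hp : p.Monic) (hn : p.natDegree = n) (hq : q.Monic) (hqp : q ∣ p) :
    diskNorm q ≤ KW n c * wnorm n c p := by
  apply csSup_le
  · exact (Metric.nonempty_closedBall.mpr zero_le_one).image _
  · rintro _ ⟨z, hz, rfl⟩
    refine Complex.norm_le_of_forall_mem_frontier_norm_le (U := Metric.ball (0:ℂ) 1)
      (f := fun z => q.eval z) Metric.isBounded_ball
      (q.differentiable.diffContOnCl) (C := KW n c * wnorm n c p) ?_ (z := z) ?_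
    · intro w hw
      rw [frontier_ball _ one_ne_zero] at hw
      exact norm_eval_le_circle hc hp hn hq hqp w (by simpa using hw)
    · rw [closure_ball _ one_ne_zero]
      exact hz

/-- Upper bound, for all norms which dominate the weighted supremum norm. -/
theorem upper {n : ℕ} {c : ℕ → ℝ} (hc : ∀ j ≤ n, 0 < c j) {N : ℂ[X] → ℝ}
    (hN : ∀ p : ℂ[X], p.Monic → p.natDegree = n → wnorm n c p ≤ N p) :
    SN n N ≤ ENNReal.ofReal (KW n c) := by
  refine iSup_le fun p => iSup_le fun q => iSup_le fun hp => iSup_le fun hn => iSup_le fun hq =>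
    iSup_le fun hqp => ?_
  apply ENNReal.ofReal_le_ofReal
  have hw := wnorm_pos hc hp hn
  have h1 := hN p hp hn
  rw [div_le_iff₀ (by linarith)]
  exact (diskNorm_le hc hp hn hq hqp).trans (mul_le_mul_of_nonneg_left h1 (KW_pos n c).le)

/-! ### Lower bound -/

/-- running maximum of the moduli of the terms `c j * (1+w)^j`, `j ≤ m` (with `c 0 = 1`) -/
noncomputable def M (c : ℕ → ℝ) : ℕ → ℂ → ℝ
  | 0, _ => 1
  | (m+1), w => max ‖((c (m+1) : ℝ) : ℂ) * (1 + w) ^ (m+1)‖ (M c m w)

theorem one_le_M (c : ℕ → ℝ) (m : ℕ) (w : ℂ) : 1 ≤ M c m w := by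
  induction m with
  | zero => simp [M]
  | succ m ih => exact le_max_of_le_right ih

theorem continuous_M (c : ℕ → ℝ) (m : ℕ) : Continuous (M c m) := by
  induction m with
  | zero => simp only [M]; exact continuous_const
  | succ m ih =>
    simp only [M]
    apply Continuous.max _ ih
    fun_prop

theorem le_M {c : ℕ → ℝ} (hc0 : c 0 = 1) (m j : ℕ) (hj : j ≤ m) (w : ℂ) :
    ‖((c j : ℝ) : ℂ) * (1 + w) ^ j‖ ≤ M c m w := by
  induction m with
  | zero =>
    have : j = 0 := by omega
    subst this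
    simp [M, hc0]
  | succ m ih =>
    rcases Nat.lt_or_ge j (m+1) with h | h
    · exact le_max_of_le_right (ih (by omega))
    · have : j = m + 1 := by omega
      subst this
      exact le_max_left _ _

theorem choose_phases {c : ℕ → ℝ} (hc0 : c 0 = 1) (m : ℕ) (A : ℂ[X]) :
    ∃ ξ : ℕ → ℂ, (∀ j, ‖ξ j‖ = 1) ∧
      circleAverage (fun w => Real.log (max ‖A.eval w‖ (M c m w))) 0 1 ≤
      circleAverage (fun w => Real.log ‖(A + ∑ j ∈ Finset.range (m+1),
        C (ξ j * ((c j : ℝ) : ℂ)) * (1 + X) ^ j).eval w‖) 0 1 := by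
  induction m generalizing A with
  | zero =>
    have hmer : Meromorphic (fun z => A.eval z) := by
      intro z
      have : AnalyticAt ℂ (fun z => A.eval z) z := by
        exact (analyticOnNhd_id.aeval_polynomial A) z (Set.mem_univ z)
      exact this.meromorphicAt
    have h1 := ValueDistribution.circleIntegrable_circleAverage_log_norm_sub (R := 1) hmer
    have h2 := congrFun (ValueDistribution.circleAverage_circleAverage_eq_proximity_top hmer) 1
    obtain ⟨ξ, hξ, h3⟩ := exists_ge_circleAverage h1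
    refine ⟨fun _ => -ξ, fun _ => by simpa using hξ, ?_⟩
    have h4 : circleAverage (fun w => Real.log (max ‖A.eval w‖ (M c 0 w))) 0 1 =
        ValueDistribution.proximity (fun z => A.eval z) ⊤ 1 := by
      rw [ValueDistribution.proximity_top]
      congr 1
      ext w
      simp only [M]
      rw [posLog_eq_log_max_one (norm_nonneg _), max_comm]
    rw [h4, ← h2]
    refine le_trans h3 (le_of_eq ?_)
    congr 1
    ext w
    simp [sub_eq_add_neg, hc0]
  | succ m ih =>
    obtain ⟨ξ0, hξ0, h1⟩ := step (A := fun w => A.eval w)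
      (B := fun w => ((c (m+1) : ℝ) : ℂ) * (1 + w) ^ (m+1)) (R := M c m)
      (by fun_prop) (by fun_prop) (continuous_M c m) (one_le_M c m)
    obtain ⟨ξ, hξ, h2⟩ := ih (A + C (ξ0 * ((c (m+1) : ℝ) : ℂ)) * (1 + X) ^ (m+1))
    refine ⟨fun j => if j = m + 1 then ξ0 else ξ j, ?_, ?_⟩
    · intro j
      dsimp only
      split_ifs
      · exact hξ0
      · exact hξ j
    · refine le_trans (le_of_eq ?_) (le_trans h1 (le_trans (le_of_eq ?_) (le_trans h2 (le_of_eq ?_))))
      · congr 1
        ext w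
        simp only [M, max_assoc]
      · congr 1
        ext w
        simp [mul_assoc]
      · congr 1
        ext w
        rw [Finset.sum_range_succ _ (m+1)]
        congr 3
        rw [add_assoc]
        congr 1
        rw [add_comm]
        congr 1
        · apply Finset.sum_congr rfl
          intro j hj
          rw [Finset.mem_range] at hj
          dsimp only
          rw [if_neg (by omega)]
        · simp

theorem avg_lower (k : ℕ) {c : ℕ → ℝ} (hc : ∀ j ≤ k + 1, 0 < c j) (hc0 : c 0 = 1) :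
    Real.log (KW (k + 1) c) - Real.log (k + 2) ≤
    circleAverage (fun w => Real.log (max
      ‖(C ((c (k + 1) : ℝ) : ℂ) * (1 + X : ℂ[X]) ^ (k + 1)).eval w‖ (M c k w))) 0 1 := by
  rw [log_KW]
  have hrhs : circleAverage (fun w : ℂ => Real.log (ker (k + 1) c w)) 0 1 - Real.log (k + 2) =
      circleAverage (fun w : ℂ => Real.log (ker (k + 1) c w) - Real.log (k + 2)) 0 1 := by
    rw [circleAverage_fun_sub (continuous_log_ker hc).continuousOn.circleIntegrable'
      (circleIntegrable_const _ _ _), circleAverage_const]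
  rw [hrhs]
  have hMpos : ∀ w, 0 < max ‖(C ((c (k + 1) : ℝ) : ℂ) * (1 + X : ℂ[X]) ^ (k + 1)).eval w‖
      (M c k w) := fun w => lt_of_lt_of_le one_pos (le_max_of_le_right (one_le_M _ _ _))
  apply circleAverage_mono
  · exact ((continuous_log_ker hc).sub continuous_const).continuousOn.circleIntegrable'
  · apply Continuous.continuousOn ?_ |>.circleIntegrable'
    apply Continuous.log
    · have := continuous_M c k
      fun_prop
    · intro x
      exact (hMpos x).ne'
  · intro w _
    have hk := ker_pos hc w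
    rw [← Real.log_div hk.ne' (by positivity)]
    apply Real.log_le_log (by positivity)
    rw [div_le_iff₀ (by positivity)]
    have h4 : ∀ j ∈ Finset.range (k + 1 + 1), c j * ‖1 + w‖ ^ j ≤
        max ‖(C ((c (k + 1) : ℝ) : ℂ) * (1 + X : ℂ[X]) ^ (k + 1)).eval w‖ (M c k w) := by
      intro j hj
      rw [Finset.mem_range] at hj
      have hcj := hc j (by omega)
      have h5 : ‖((c j : ℝ) : ℂ) * (1 + w) ^ j‖ = c j * ‖1 + w‖ ^ j := by
        rw [norm_mul, norm_pow, Complex.norm_real, Real.norm_eq_abs, abs_of_pos hcj]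
      rcases Nat.lt_or_ge j (k + 1) with h | h
      · apply le_max_of_le_right
        rw [← h5]
        exact le_M hc0 k j (by omega) w
      · have : j = k + 1 := by omega
        subst this
        apply le_max_of_le_left
        rw [← h5]
        simp
    unfold ker
    refine (Finset.sum_le_sum h4).trans ?_
    rw [Finset.sum_const, Finset.card_range, nsmul_eq_mul, mul_comm]
    push_cast
    rw [show (k : ℝ) + 1 + 1 = k + 2 by ring]

/-- The extremal pair, for weights with `c 0 = 1`. -/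
theorem pair1 (k : ℕ) {c : ℕ → ℝ} (hc : ∀ j ≤ k + 1, 0 < c j) (hc0 : c 0 = 1) :
    ∃ p q : ℂ[X], p.Monic ∧ p.natDegree = k + 1 ∧ q.Monic ∧ q ∣ p ∧
      (∀ j ≤ k + 1, ‖p.coeff j‖ = c j / c (k + 1)) ∧
      KW (k + 1) c / ((k + 2) * c (k + 1)) ≤ ‖q.eval 1‖ := by
  have hcn := hc (k + 1) le_rfl
  have hcn' : ((c (k + 1) : ℝ) : ℂ) ≠ 0 := by exact_mod_cast hcn.ne'
  obtain ⟨ξ, hξ, h1⟩ := choose_phases hc0 k (C ((c (k + 1) : ℝ) : ℂ) * (1 + X) ^ (k + 1))
  set r : ℂ[X] := ∑ j ∈ Finset.range (k + 1),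
    C (ξ j * ((c j : ℝ) : ℂ) / ((c (k + 1) : ℝ) : ℂ)) * X ^ j with hr
  have hrdeg : r.degree < ((k + 1 : ℕ) : WithBot ℕ) := by
    rw [← Polynomial.mem_degreeLT]
    apply Submodule.sum_mem
    intro j hj
    rw [Polynomial.mem_degreeLT]
    refine lt_of_le_of_lt (degree_C_mul_X_pow_le _ _) ?_
    exact_mod_cast Finset.mem_range.mp hj
  set p : ℂ[X] := X ^ (k + 1) + r with hp
  have hmonic : p.Monic := monic_X_pow_add hrdeg
  have hdeg : p.natDegree = k + 1 := by
    have h0 : p.degree = ((k + 1 : ℕ) : WithBot ℕ) := by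
      rw [hp, degree_add_eq_left_of_degree_lt, degree_X_pow]
      rwa [degree_X_pow]
    exact natDegree_eq_of_degree_eq_some h0
  have hrcoeff : ∀ j, j < k + 1 → r.coeff j =
      ξ j * ((c j : ℝ) : ℂ) / ((c (k + 1) : ℝ) : ℂ) := by
    intro j hj
    rw [hr, finsetSum_coeff]
    simp only [coeff_C_mul_X_pow]
    rw [Finset.sum_ite_eq]
    rw [if_pos (Finset.mem_range.mpr hj)]
  have hcoef : ∀ j ≤ k + 1, ‖p.coeff j‖ = c j / c (k + 1) := by
    intro j hj
    rcases Nat.lt_or_ge j (k + 1) with h | h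
    · rw [hp, coeff_add, hrcoeff j h, coeff_X_pow, if_neg (by omega), zero_add, norm_div,
        norm_mul, hξ, one_mul, Complex.norm_real, Complex.norm_real, Real.norm_eq_abs,
        Real.norm_eq_abs, abs_of_pos (hc j hj), abs_of_pos hcn]
    · have : j = k + 1 := by omega
      subst this
      have h5 : p.coeff (k + 1) = 1 := by
        have := hmonic.coeff_natDegree
        rwa [hdeg] at this
      rw [h5, norm_one, div_self hcn.ne']
  have hcomp : C ((c (k + 1) : ℝ) : ℂ) * p.comp (C 1 * X + C 1) =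
      C ((c (k + 1) : ℝ) : ℂ) * (1 + X) ^ (k + 1) +
      ∑ j ∈ Finset.range (k + 1), C (ξ j * ((c j : ℝ) : ℂ)) * (1 + X) ^ j := by
    have h0 : r.comp (1 + X) = ∑ j ∈ Finset.range (k + 1),
        C (ξ j * ((c j : ℝ) : ℂ) / ((c (k + 1) : ℝ) : ℂ)) * (1 + X) ^ j := by
      rw [hr, ← Polynomial.coe_compRingHom_apply, map_sum]
      apply Finset.sum_congr rfl
      intro j _
      rw [Polynomial.coe_compRingHom_apply, mul_comp, C_comp, pow_comp, X_comp]
    rw [hp, map_one, one_mul, add_comm (X : ℂ[X]) 1, add_comp, pow_comp, X_comp, h0, mul_add,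
      Finset.mul_sum]
    congr 1
    apply Finset.sum_congr rfl
    intro j _
    rw [← mul_assoc, ← C_mul]
    congr 2
    field_simp
  obtain ⟨q, hq, hqp, hq1⟩ := exists_divisor p hmonic
  refine ⟨p, q, hmonic, hdeg, hq, hqp, hcoef, ?_⟩
  rw [hq1, ← mahler_shift p hmonic 1 (by simp)]
  have h2 := (avg_lower k hc hc0).trans h1
  have hpc := comp_ne_zero p hmonic 1 (by simp)
  have hpos := mahlerMeasure_pos_of_ne_zero hpc
  have hK := KW_pos (k + 1) c
  have h3 : Real.log (KW (k + 1) c / (k + 2)) ≤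
      Real.log (c (k + 1) * (p.comp (C 1 * X + C 1)).mahlerMeasure) := by
    have e1 : c (k + 1) * (p.comp (C 1 * X + C 1)).mahlerMeasure =
        (C ((c (k + 1) : ℝ) : ℂ) * p.comp (C 1 * X + C 1)).mahlerMeasure := by
      rw [mahlerMeasure_mul, mahlerMeasure_const, Complex.norm_real, Real.norm_eq_abs,
        abs_of_pos hcn]
    rw [e1, hcomp, Real.log_div hK.ne' (by positivity), ← logMahlerMeasure_eq_log_MahlerMeasure,
      logMahlerMeasure_def]
    exact h2
  rw [Real.log_le_log_iff (by positivity) (by positivity)] at h3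
  rw [div_le_iff₀ (by positivity)]
  rw [div_le_iff₀ (by positivity)] at h3
  linarith

/-- scaling of the weights -/
theorem KW_scale {n : ℕ} {c : ℕ → ℝ} (hc : ∀ j ≤ n, 0 < c j) {a : ℝ} (ha : 0 < a) :
    KW n (fun j => c j / a) = KW n c / a := by
  have h1 : Real.log (KW n (fun j => c j / a)) = Real.log (KW n c / a) := by
    rw [Real.log_div (KW_pos _ _).ne' ha.ne', log_KW, log_KW]
    have h2 : (fun w : ℂ => Real.log (ker n (fun j => c j / a) w)) =
        fun w => Real.log (ker n c w) - Real.log a := by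
      funext w
      rw [← Real.log_div (ker_pos hc w).ne' ha.ne']
      congr 1
      unfold ker
      rw [Finset.sum_div]
      apply Finset.sum_congr rfl
      intro j _
      ring
    rw [h2, circleAverage_fun_sub (continuous_log_ker hc).continuousOn.circleIntegrable'
      (circleIntegrable_const _ _ _), circleAverage_const]
  exact Real.log_injOn_pos (KW_pos _ _) (div_pos (KW_pos _ _) ha) h1

/-- The extremal pair, for all weights. -/
theorem pair (k : ℕ) {c : ℕ → ℝ} (hc : ∀ j ≤ k + 1, 0 < c j) :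
    ∃ p q : ℂ[X], p.Monic ∧ p.natDegree = k + 1 ∧ q.Monic ∧ q ∣ p ∧
      (∀ j ≤ k + 1, ‖p.coeff j‖ = c j / c (k + 1)) ∧
      KW (k + 1) c / ((k + 2) * c (k + 1)) ≤ ‖q.eval 1‖ := by
  have h0 := hc 0 (Nat.zero_le _)
  have hn := hc (k + 1) le_rfl
  obtain ⟨p, q, h1, h2, h3, h4, h5, h6⟩ := pair1 k (c := fun j => c j / c 0)
    (fun j hj => div_pos (hc j hj) h0) (div_self h0.ne')
  refine ⟨p, q, h1, h2, h3, h4, fun j hj => ?_, le_trans (le_of_eq ?_) h6⟩
  · rw [h5 j hj]
    field_simp
  · rw [KW_scale hc h0]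
    field_simp

/-- Lower bound, for all norms which are at most `D` times the weighted supremum norm. -/
theorem lower (k : ℕ) {c : ℕ → ℝ} (hc : ∀ j ≤ k + 1, 0 < c j) {N : ℂ[X] → ℝ} {D : ℝ}
    (hD : 0 < D)
    (hN : ∀ p : ℂ[X], p.Monic → p.natDegree = k + 1 →
      wnorm (k + 1) c p ≤ N p ∧ N p ≤ D * wnorm (k + 1) c p) :
    ENNReal.ofReal (KW (k + 1) c / (D * (k + 2))) ≤ SN (k + 1) N := by
  obtain ⟨p, q, h1, h2, h3, h4, h5, h6⟩ := pair k hc
  have hn := hc (k + 1) le_rfl
  have hK := KW_pos (k + 1) c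
  have hS : ENNReal.ofReal (diskNorm q / N p) ≤ SN (k + 1) N := by
    refine le_iSup_of_le p ?_
    refine le_iSup_of_le q ?_
    refine le_iSup_of_le h1 ?_
    refine le_iSup_of_le h2 ?_
    refine le_iSup_of_le h3 ?_
    exact le_iSup_of_le h4 le_rfl
  refine le_trans (ENNReal.ofReal_le_ofReal ?_) hS
  have hw := wnorm_pos hc h1 h2
  have hw2 : wnorm (k + 1) c p ≤ 1 / c (k + 1) := by
    unfold wnorm
    apply Finset.sup'_le
    intro j hj
    have hj' : j ≤ k + 1 := Nat.lt_succ_iff.mp (Finset.mem_range.mp hj)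
    rw [h5 j hj', div_div, mul_comm, ← div_div, div_self (hc j hj').ne']
  obtain ⟨g1, g2⟩ := hN p h1 h2
  have hNp : 0 < N p := lt_of_lt_of_le hw g1
  have hN2 : N p ≤ D / c (k + 1) := by
    refine g2.trans ?_
    calc D * wnorm (k + 1) c p ≤ D * (1 / c (k + 1)) := mul_le_mul_of_nonneg_left hw2 hD.le
      _ = D / c (k + 1) := by ring
  rw [le_div_iff₀ hNp]
  calc KW (k + 1) c / (D * (k + 2)) * N p ≤ KW (k + 1) c / (D * (k + 2)) * (D / c (k + 1)) :=
        mul_le_mul_of_nonneg_left hN2 (by positivity)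
    _ = KW (k + 1) c / ((k + 2) * c (k + 1)) := by field_simp
    _ ≤ ‖q.eval 1‖ := h6
    _ ≤ diskNorm q := le_diskNorm q 1 (by simp)

end Pool.Agent.Y83.BF
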