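import Mathlib
import Pool.Agent.Y83.BF.Gen

/-!
# Factors of polynomials and weighted coefficient norms (helper83)

The powers of the binomial coefficients as weights.
-/

set_option autoImplicit false

open Polynomial Real MeasureTheory Filter Set Topology

namespace Pool.Agent.Y83.BF

/-- The growth function: `(1 + x^(1/θ))^θ` for `θ > 0` and `max 1 x` for `θ = 0`. -/
noncomputable def gth (θ x : ℝ) : ℝ := if θ = 0 then max 1 x else (1 + x ^ (1 / θ)) ^ θ

/-- The constant `K_θ`: the Mahler measure of `(1 + |1 + x|^(1/θ))^θ`. -/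
noncomputable def KT (θ : ℝ) : ℝ :=
  Real.exp (1 / (2 * π) * ∫ t in (0 : ℝ)..(2 * π),
    Real.log (gth θ ‖1 + Complex.exp (t * Complex.I)‖))

theorem gth_ge_one {θ x : ℝ} (hθ : 0 ≤ θ) (hx : 0 ≤ x) : 1 ≤ gth θ x := by
  unfold gth
  split_ifs with h
  · exact le_max_left _ _
  · exact Real.one_le_rpow (by have := Real.rpow_nonneg hx (1 / θ); linarith) hθ

theorem gth_continuous {θ : ℝ} (hθ : 0 ≤ θ) : Continuous (fun w : ℂ => gth θ ‖1 + w‖) := by
  unfold gth
  split_ifs with h
  · fun_prop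
  · have h1 : Continuous (fun w : ℂ => 1 + ‖1 + w‖ ^ (1 / θ)) := by
      refine continuous_const.add (Continuous.rpow_const (by fun_prop) fun w => Or.inr ?_)
      positivity
    exact h1.rpow_const fun w => Or.inr hθ

theorem log_KT (θ : ℝ) :
    Real.log (KT θ) = circleAverage (fun w : ℂ => Real.log (gth θ ‖1 + w‖)) 0 1 := by
  rw [KT, Real.log_exp, circleAverage_def, smul_eq_mul, one_div]
  congr 1
  apply intervalIntegral.integral_congr
  intro t _
  simp [circleMap]

theorem KT_pos (θ : ℝ) : 0 < KT θ := Real.exp_pos _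

theorem log_gth_continuous {θ : ℝ} (hθ : 0 ≤ θ) :
    Continuous (fun w : ℂ => Real.log (gth θ ‖1 + w‖)) :=
  (gth_continuous hθ).log fun w =>
    (lt_of_lt_of_le one_pos (gth_ge_one hθ (norm_nonneg _))).ne'

/-- the two-sided bound for the sum of the weights -/
theorem sum_bounds {θ x : ℝ} (hθ : 0 ≤ θ) (hx : 0 ≤ x) (n : ℕ) :
    gth θ x ^ n / ((n : ℝ) + 1) ^ θ ≤
      ∑ j ∈ Finset.range (n + 1), (n.choose j : ℝ) ^ θ * x ^ j ∧
    ∑ j ∈ Finset.range (n + 1), (n.choose j : ℝ) ^ θ * x ^ j ≤ (n + 1) * gth θ x ^ n := by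
  rcases hθ.eq_or_lt with rfl | hθ'
  · unfold gth
    simp only [if_true, Real.rpow_zero, one_mul, div_one]
    constructor
    · rcases le_total x 1 with h | h
      · rw [max_eq_left h, one_pow]
        calc (1 : ℝ) = x ^ 0 := (pow_zero x).symm
          _ ≤ ∑ j ∈ Finset.range (n + 1), x ^ j :=
            Finset.single_le_sum (f := fun j => x ^ j) (fun j _ => by positivity) (by simp)
      · rw [max_eq_right h]
        exact Finset.single_le_sum (f := fun j => x ^ j) (fun j _ => by positivity) (by simp)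
    · have h1 : ∀ j ∈ Finset.range (n + 1), x ^ j ≤ max 1 x ^ n := by
        intro j hj
        calc x ^ j ≤ max 1 x ^ j := pow_le_pow_left₀ hx (le_max_right _ _) j
          _ ≤ max 1 x ^ n := pow_le_pow_right₀ (le_max_left _ _)
            (Nat.lt_succ_iff.mp (Finset.mem_range.mp hj))
      refine (Finset.sum_le_sum h1).trans ?_
      rw [Finset.sum_const, Finset.card_range, nsmul_eq_mul]
      push_cast
      exact le_rfl
  · set y := x ^ (1 / θ) with hy
    have hy0 : 0 ≤ y := Real.rpow_nonneg hx _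
    have hyx : y ^ θ = x := by
      rw [hy, ← Real.rpow_mul hx, one_div_mul_cancel hθ'.ne', Real.rpow_one]
    have hterm : ∀ j, (n.choose j : ℝ) ^ θ * x ^ j = ((n.choose j : ℝ) * y ^ j) ^ θ := by
      intro j
      rw [Real.mul_rpow (by positivity) (by positivity), ← hyx, ← Real.rpow_natCast (y ^ θ) j,
        ← Real.rpow_natCast y j, ← Real.rpow_mul hy0, ← Real.rpow_mul hy0, mul_comm θ]
    have hpow : (1 + y) ^ n = ∑ j ∈ Finset.range (n + 1), (n.choose j : ℝ) * y ^ j := by
      rw [add_comm, add_pow]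
      apply Finset.sum_congr rfl
      intro j _
      rw [one_pow]
      ring
    have hg : gth θ x ^ n = ((1 + y) ^ n) ^ θ := by
      unfold gth
      rw [if_neg hθ'.ne', ← hy, ← Real.rpow_natCast ((1 + y) ^ θ) n, ← Real.rpow_natCast (1 + y) n,
        ← Real.rpow_mul (by positivity), ← Real.rpow_mul (by positivity), mul_comm θ]
    simp only [hterm, hg]
    constructor
    · -- some term is large
      obtain ⟨j, hj, hjl⟩ : ∃ j ∈ Finset.range (n + 1),
          (1 + y) ^ n / ((n : ℝ) + 1) ≤ (n.choose j : ℝ) * y ^ j := by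
        by_contra hcon
        push Not at hcon
        have h1 := Finset.sum_lt_sum_of_nonempty (s := Finset.range (n + 1)) (by simp) hcon
        rw [← hpow, Finset.sum_const, Finset.card_range, nsmul_eq_mul] at h1
        push_cast at h1
        rw [mul_div_cancel₀ _ (by positivity)] at h1
        exact lt_irrefl _ h1
      calc ((1 + y) ^ n) ^ θ / ((n : ℝ) + 1) ^ θ = ((1 + y) ^ n / ((n : ℝ) + 1)) ^ θ := by
            rw [Real.div_rpow (by positivity) (by positivity)]
        _ ≤ ((n.choose j : ℝ) * y ^ j) ^ θ := Real.rpow_le_rpow (by positivity) hjl hθ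
        _ ≤ ∑ j ∈ Finset.range (n + 1), ((n.choose j : ℝ) * y ^ j) ^ θ :=
            Finset.single_le_sum (f := fun j => ((n.choose j : ℝ) * y ^ j) ^ θ)
              (fun j _ => by positivity) hj
    · have h1 : ∀ j ∈ Finset.range (n + 1), ((n.choose j : ℝ) * y ^ j) ^ θ ≤ ((1 + y) ^ n) ^ θ := by
        intro j hj
        apply Real.rpow_le_rpow (by positivity) _ hθ
        rw [hpow]
        exact Finset.single_le_sum (f := fun j => (n.choose j : ℝ) * y ^ j)
          (fun j _ => by positivity) hj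
      refine (Finset.sum_le_sum h1).trans ?_
      rw [Finset.sum_const, Finset.card_range, nsmul_eq_mul]
      push_cast
      exact le_rfl

/-- the weights -/
noncomputable def cth (θ : ℝ) (n j : ℕ) : ℝ := (n.choose j : ℝ) ^ θ

theorem cth_pos (θ : ℝ) {n j : ℕ} (hj : j ≤ n) : 0 < cth θ n j := by
  unfold cth
  have : 0 < n.choose j := Nat.choose_pos hj
  positivity

theorem KW_bounds {θ : ℝ} (hθ : 0 ≤ θ) (n : ℕ) :
    KT θ ^ n / ((n : ℝ) + 1) ^ θ ≤ KW n (cth θ n) ∧ KW n (cth θ n) ≤ (n + 1) * KT θ ^ n := by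
  have hKT := KT_pos θ
  have hKW := KW_pos n (cth θ n)
  have hc : ∀ j ≤ n, 0 < cth θ n j := fun j hj => cth_pos θ hj
  have hg : ∀ w : ℂ, 0 < gth θ ‖1 + w‖ := fun w =>
    lt_of_lt_of_le one_pos (gth_ge_one hθ (norm_nonneg _))
  have hcg := log_gth_continuous hθ
  have hgi : CircleIntegrable (fun w : ℂ => (n : ℝ) • Real.log (gth θ ‖1 + w‖)) 0 1 :=
    (hcg.const_smul (n : ℝ)).continuousOn.circleIntegrable'
  constructor
  · rw [← Real.log_le_log_iff (by positivity) hKW, Real.log_div (by positivity) (by positivity),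
      Real.log_pow, log_KT, log_KW, Real.log_rpow (by positivity)]
    have h1 : (n : ℝ) * circleAverage (fun w : ℂ => Real.log (gth θ ‖1 + w‖)) 0 1
        - θ * Real.log ((n : ℝ) + 1) =
        circleAverage (fun w : ℂ => (n : ℝ) • Real.log (gth θ ‖1 + w‖)
          - θ * Real.log ((n : ℝ) + 1)) 0 1 := by
      rw [circleAverage_fun_sub hgi (circleIntegrable_const _ _ _), circleAverage_const,
        circleAverage_fun_smul, smul_eq_mul]
    rw [h1]
    apply circleAverage_mono
    · exact ((hcg.const_smul (n : ℝ)).sub continuous_const).continuousOn.circleIntegrable'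
    · exact (continuous_log_ker hc).continuousOn.circleIntegrable'
    · intro w _
      have h2 := (sum_bounds hθ (norm_nonneg (1 + w)) n).1
      rw [smul_eq_mul, ← Real.log_pow, ← Real.log_rpow (by positivity),
        ← Real.log_div (by have := hg w; positivity) (by positivity)]
      exact Real.log_le_log (by have := hg w; positivity) h2
  · rw [← Real.log_le_log_iff hKW (by positivity), Real.log_mul (by positivity) (by positivity),
      Real.log_pow, log_KT, log_KW]
    have h1 : Real.log ((n : ℝ) + 1) + (n : ℝ) *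
        circleAverage (fun w : ℂ => Real.log (gth θ ‖1 + w‖)) 0 1 =
        circleAverage (fun w : ℂ => Real.log ((n : ℝ) + 1) +
          (n : ℝ) • Real.log (gth θ ‖1 + w‖)) 0 1 := by
      rw [circleAverage_fun_add (circleIntegrable_const _ _ _) hgi, circleAverage_const,
        circleAverage_fun_smul, smul_eq_mul]
    rw [h1]
    apply circleAverage_mono
    · exact (continuous_log_ker hc).continuousOn.circleIntegrable'
    · exact (continuous_const.add (hcg.const_smul (n : ℝ))).continuousOn.circleIntegrable'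
    · intro w _
      have h2 := (sum_bounds hθ (norm_nonneg (1 + w)) n).2
      rw [smul_eq_mul, ← Real.log_pow, ← Real.log_mul (by positivity)
        (by have := hg w; positivity)]
      exact Real.log_le_log (ker_pos hc w) h2

/-- roots of powers of `n + 1` tend to one -/
theorem root_tendsto (B : ℝ) :
    Tendsto (fun n : ℕ => (((n : ℝ) + 1) ^ B) ^ (1 / (n : ℝ))) atTop (𝓝 1) := by
  have h1 : Tendsto (fun x : ℝ => x ^ ((1:ℝ) / (1 * x + (-1)))) atTop (𝓝 1) :=
    tendsto_rpow_div_mul_add 1 1 (-1) (by norm_num)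
  have h2 : Tendsto (fun n : ℕ => ((n : ℝ) + 1)) atTop atTop :=
    tendsto_atTop_add_const_right _ _ tendsto_natCast_atTop_atTop
  have h3 := h1.comp h2
  have h4 : Tendsto (fun n : ℕ => ((n : ℝ) + 1) ^ (1 / (n : ℝ))) atTop (𝓝 1) := by
    refine h3.congr (fun n => ?_)
    simp only [Function.comp]
    congr 2
    ring
  have h5 : Tendsto (fun n : ℕ => (((n : ℝ) + 1) ^ (1 / (n : ℝ))) ^ B) atTop (𝓝 (1 ^ B)) :=
    (Real.continuousAt_rpow_const 1 B (Or.inl one_ne_zero)).tendsto.comp h4
  rw [Real.one_rpow] at h5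
  refine h5.congr fun n => ?_
  rw [← Real.rpow_mul (by positivity), ← Real.rpow_mul (by positivity), mul_comm]

/-- asymptotics from two-sided bounds up to powers of `n + 1` -/
theorem root_limit {K : ℝ} (hK : 0 < K) {f : ℕ → ENNReal} {A B : ℝ}
    (h1 : ∀ n : ℕ, 1 ≤ n → ENNReal.ofReal (K ^ n / ((n : ℝ) + 1) ^ A) ≤ f n)
    (h2 : ∀ n : ℕ, 1 ≤ n → f n ≤ ENNReal.ofReal (((n : ℝ) + 1) ^ B * K ^ n)) :
    Tendsto (fun n : ℕ => f n ^ (1 / (n : ℝ))) atTop (𝓝 (ENNReal.ofReal K)) := by
  have hroot : ∀ n : ℕ, 1 ≤ n → (K ^ n) ^ (1 / (n : ℝ)) = K := by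
    intro n hn
    have hn' : (0:ℝ) < (n : ℝ) := by exact_mod_cast hn
    rw [← Real.rpow_natCast, ← Real.rpow_mul hK.le, mul_one_div_cancel hn'.ne', Real.rpow_one]
  have l1 : Tendsto (fun n : ℕ => ENNReal.ofReal (K / (((n : ℝ) + 1) ^ A) ^ (1 / (n : ℝ)))) atTop
      (𝓝 (ENNReal.ofReal K)) := by
    apply ENNReal.tendsto_ofReal
    have := Tendsto.div (tendsto_const_nhds (x := K) (f := atTop)) (root_tendsto A) one_ne_zero
    rw [div_one] at this
    exact this
  have l2 : Tendsto (fun n : ℕ => ENNReal.ofReal ((((n : ℝ) + 1) ^ B) ^ (1 / (n : ℝ)) * K)) atTop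
      (𝓝 (ENNReal.ofReal K)) := by
    apply ENNReal.tendsto_ofReal
    have := (root_tendsto B).mul (tendsto_const_nhds (x := K) (f := atTop))
    rw [one_mul] at this
    exact this
  refine tendsto_of_tendsto_of_tendsto_of_le_of_le' l1 l2 ?_ ?_
  · filter_upwards [eventually_ge_atTop 1] with n hn
    have h3 := ENNReal.rpow_le_rpow (h1 n hn) (z := 1 / (n : ℝ)) (by positivity)
    refine le_trans (le_of_eq ?_) h3
    rw [ENNReal.ofReal_rpow_of_nonneg (by positivity) (by positivity),
      Real.div_rpow (by positivity) (by positivity), hroot n hn]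
  · filter_upwards [eventually_ge_atTop 1] with n hn
    have h3 := ENNReal.rpow_le_rpow (h2 n hn) (z := 1 / (n : ℝ)) (by positivity)
    refine h3.trans (le_of_eq ?_)
    rw [ENNReal.ofReal_rpow_of_nonneg (by positivity) (by positivity),
      Real.mul_rpow (by positivity) (by positivity), hroot n hn]

/-- general form of the asymptotics, for all norms between the weighted supremum norm and
`(n + 1)^A` times the weighted supremum norm -/
theorem asymptotics {θ : ℝ} (hθ : 0 ≤ θ) (A : ℝ) (N : ℕ → ℂ[X] → ℝ)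
    (hN : ∀ (n : ℕ) (p : ℂ[X]), 1 ≤ n → p.Monic → p.natDegree = n →
      wnorm n (cth θ n) p ≤ N n p ∧ N n p ≤ ((n : ℝ) + 1) ^ A * wnorm n (cth θ n) p) :
    Tendsto (fun n : ℕ => SN n (N n) ^ (1 / (n : ℝ))) atTop (𝓝 (ENNReal.ofReal (KT θ))) := by
  have hK := KT_pos θ
  refine root_limit hK (A := θ + A + 1) (B := 1) (fun n hn => ?_) (fun n hn => ?_)
  · obtain ⟨k, rfl⟩ : ∃ k, n = k + 1 := ⟨n - 1, by omega⟩
    have hD : (0 : ℝ) < (((k + 1 : ℕ) : ℝ) + 1) ^ A := by positivity
    refine le_trans (ENNReal.ofReal_le_ofReal ?_)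
      (lower k (c := cth θ (k + 1)) (fun j hj => cth_pos θ hj) hD
        (fun p hp hn => hN (k + 1) p (by omega) hp hn))
    have h1 := (KW_bounds hθ (k + 1)).1
    have e1 : (((k + 1 : ℕ) : ℝ) + 1) = (k : ℝ) + 2 := by push_cast; ring
    rw [e1] at h1 hD ⊢
    have hk : (0 : ℝ) < (k : ℝ) + 2 := by positivity
    rw [le_div_iff₀ (by positivity)]
    refine le_trans (le_of_eq ?_) h1
    rw [Real.rpow_add hk, Real.rpow_add hk, Real.rpow_one]
    field_simp
  · refine le_trans (upper (c := cth θ n) (fun j hj => cth_pos θ hj)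
      (fun p hp hpn => (hN n p hn hp hpn).1)) (ENNReal.ofReal_le_ofReal ?_)
    rw [Real.rpow_one]
    exact (KW_bounds hθ n).2

/-- The `ℓ^r` version of the weighted norm: `(∑ (|a_j| / c_j)^r)^(1/r)`. -/
noncomputable def rnorm (r : ℝ) (n : ℕ) (c : ℕ → ℝ) (p : ℂ[X]) : ℝ :=
  (∑ j ∈ Finset.range (n + 1), (‖p.coeff j‖ / c j) ^ r) ^ (1 / r)

theorem rnorm_bounds {r : ℝ} (hr : 1 ≤ r) {n : ℕ} {c : ℕ → ℝ} (hc : ∀ j ≤ n, 0 < c j) (p : ℂ[X]) :
    wnorm n c p ≤ rnorm r n c p ∧ rnorm r n c p ≤ ((n : ℝ) + 1) ^ (1 : ℝ) * wnorm n c p := by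
  have hr0 : 0 < r := by linarith
  have hnn : ∀ j ∈ Finset.range (n + 1), 0 ≤ ‖p.coeff j‖ / c j := fun j hj =>
    div_nonneg (norm_nonneg _) (hc j (Nat.lt_succ_iff.mp (Finset.mem_range.mp hj))).le
  have hw0 : 0 ≤ wnorm n c p :=
    (hnn 0 (by simp)).trans (Finset.le_sup' (fun j => ‖p.coeff j‖ / c j) (by simp))
  constructor
  · unfold wnorm rnorm
    apply Finset.sup'_le
    intro j hj
    have h1 : (‖p.coeff j‖ / c j) ^ r ≤ ∑ j ∈ Finset.range (n + 1), (‖p.coeff j‖ / c j) ^ r :=
      Finset.single_le_sum (f := fun j => (‖p.coeff j‖ / c j) ^ r)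
        (fun i hi => Real.rpow_nonneg (hnn i hi) _) hj
    calc ‖p.coeff j‖ / c j = ((‖p.coeff j‖ / c j) ^ r) ^ (1 / r) := by
          rw [← Real.rpow_mul (hnn j hj), mul_one_div_cancel hr0.ne', Real.rpow_one]
      _ ≤ _ := Real.rpow_le_rpow (Real.rpow_nonneg (hnn j hj) _) h1 (by positivity)
  · unfold rnorm
    have h1 : ∑ j ∈ Finset.range (n + 1), (‖p.coeff j‖ / c j) ^ r ≤
        ((n : ℝ) + 1) * wnorm n c p ^ r := by
      have h2 : ∀ j ∈ Finset.range (n + 1), (‖p.coeff j‖ / c j) ^ r ≤ wnorm n c p ^ r := by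
        intro j hj
        exact Real.rpow_le_rpow (hnn j hj) (Finset.le_sup' (fun j => ‖p.coeff j‖ / c j) hj) hr0.le
      refine (Finset.sum_le_sum h2).trans ?_
      rw [Finset.sum_const, Finset.card_range, nsmul_eq_mul]
      push_cast
      exact le_rfl
    calc (∑ j ∈ Finset.range (n + 1), (‖p.coeff j‖ / c j) ^ r) ^ (1 / r)
        ≤ (((n : ℝ) + 1) * wnorm n c p ^ r) ^ (1 / r) :=
          Real.rpow_le_rpow (Finset.sum_nonneg fun j hj => Real.rpow_nonneg (hnn j hj) _) h1
            (by positivity)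
      _ = ((n : ℝ) + 1) ^ (1 / r) * wnorm n c p := by
          rw [Real.mul_rpow (by positivity) (Real.rpow_nonneg hw0 _), ← Real.rpow_mul hw0,
            mul_one_div_cancel hr0.ne', Real.rpow_one]
      _ ≤ ((n : ℝ) + 1) ^ (1 : ℝ) * wnorm n c p := by
          apply mul_le_mul_of_nonneg_right _ hw0
          apply Real.rpow_le_rpow_of_exponent_le
          · have : (0 : ℝ) ≤ n := Nat.cast_nonneg n
            linarith
          · rw [div_le_one hr0]; exact hr

theorem tendsto_rnorm {θ r : ℝ} (hθ : 0 ≤ θ) (hr : 1 ≤ r) :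
    Tendsto (fun n : ℕ => SN n (rnorm r n (cth θ n)) ^ (1 / (n : ℝ))) atTop
      (𝓝 (ENNReal.ofReal (KT θ))) :=
  asymptotics hθ 1 (fun n => rnorm r n (cth θ n)) fun _ p _ _ _ =>
    rnorm_bounds hr (fun _ hj => cth_pos θ hj) p

theorem tendsto_wnorm {θ : ℝ} (hθ : 0 ≤ θ) :
    Tendsto (fun n : ℕ => SN n (wnorm n (cth θ n)) ^ (1 / (n : ℝ))) atTop
      (𝓝 (ENNReal.ofReal (KT θ))) :=
  asymptotics hθ 0 (fun n => wnorm n (cth θ n)) fun _ p _ _ _ =>
    ⟨le_rfl, by rw [Real.rpow_zero, one_mul]⟩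

/-! ### Special values -/

theorem KT_one : KT 1 = Pool.Agent.Results.MP_6d4084_an.LimsupEqK.K := by
  unfold KT Pool.Agent.Results.MP_6d4084_an.LimsupEqK.K
  simp only [gth, one_ne_zero, if_false, div_one, Real.rpow_one]

theorem KW_choose (n : ℕ) : KW n (fun j => (n.choose j : ℝ)) =
    Pool.Agent.Results.MP_6d4084_an.LimsupEqK.K ^ n := by
  have h1 : Real.log (KW n (fun j => (n.choose j : ℝ))) =
      Real.log (Pool.Agent.Results.MP_6d4084_an.LimsupEqK.K ^ n) := by
    rw [Real.log_pow, Pool.Agent.Results.MP_6d4084_an.LimsupEqK.log_K, log_KW, ← smul_eq_mul,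
      ← circleAverage_fun_smul]
    congr 1
    funext w
    rw [smul_eq_mul, ← Real.log_pow]
    congr 1
    unfold ker
    rw [add_comm (1 : ℝ), add_pow]
    apply Finset.sum_congr rfl
    intro j _
    rw [one_pow]
    ring
  exact Real.log_injOn_pos (KW_pos _ _)
    (pow_pos Pool.Agent.Results.MP_6d4084_an.LimsupEqK.K_pos n) h1

/-- The constant of Bombieri's quadratic norm is the golden ratio. -/
theorem KT_half : KT (1 / 2) = (1 + √5) / 2 := by
  have h5 : (0 : ℝ) ≤ 5 := by norm_num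
  have hs : √5 * √5 = 5 := Real.mul_self_sqrt h5
  have hs2 : 2 < √5 := by
    rw [Real.lt_sqrt (by norm_num)]; norm_num
  have hs3 : √5 < 3 := by
    rw [Real.sqrt_lt' (by norm_num)]; norm_num
  set a : ℝ := (3 + √5) / 2 with ha
  set b : ℝ := (3 - √5) / 2 with hb
  have hab : a * b = 1 := by rw [ha, hb]; nlinarith
  have hab2 : a + b = 3 := by rw [ha, hb]; ring
  have ha1 : 1 ≤ a := by rw [ha]; linarith
  have hb1 : b ≤ 1 := by rw [hb]; linarith
  have hb0 : 0 < b := by rw [hb]; linarith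
  have hm : ∀ x : ℝ, 0 < x → (C (1 : ℂ) * X + C (x : ℂ)).mahlerMeasure = max 1 x := by
    intro x hx
    rw [mahlerMeasure_C_mul_X_add_C one_ne_zero, norm_one, Complex.norm_real, Real.norm_eq_abs,
      abs_of_pos hx]
  have h1 : circleAverage (fun w : ℂ => Real.log
      ‖((C (1 : ℂ) * X + C (a : ℂ)) * (C (1 : ℂ) * X + C (b : ℂ))).eval w‖) 0 1 = Real.log a := by
    rw [← logMahlerMeasure_def, logMahlerMeasure_eq_log_MahlerMeasure, mahlerMeasure_mul,
      hm a (by linarith), hm b hb0, max_eq_right ha1, max_eq_left hb1, mul_one]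
  have h2 : Real.log (KT (1 / 2)) = 1 / 2 * Real.log a := by
    rw [log_KT, ← h1, ← smul_eq_mul, ← circleAverage_fun_smul]
    rw [circleAverage_def, circleAverage_def]
    congr 1
    apply intervalIntegral.integral_congr
    intro t _
    set w : ℂ := circleMap 0 1 t with hw
    have hw1 : ‖w‖ = 1 := by rw [hw]; simp
    have e1 : gth (1 / 2) ‖1 + w‖ = (1 + ‖1 + w‖ ^ 2) ^ (1 / 2 : ℝ) := by
      unfold gth
      rw [if_neg (by norm_num), one_div_one_div]
      norm_num
    have e2 : ‖((C (1 : ℂ) * X + C (a : ℂ)) * (C (1 : ℂ) * X + C (b : ℂ))).eval w‖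
        = 1 + ‖1 + w‖ ^ 2 := by
      have hsq : w.re ^ 2 + w.im ^ 2 = 1 := by
        have := Complex.normSq_apply w
        rw [Complex.normSq_eq_norm_sq, hw1] at this
        linarith
      have h3 : ‖1 + w‖ ^ 2 = 2 + 2 * w.re := by
        rw [← Complex.normSq_eq_norm_sq, Complex.normSq_apply]
        simp only [Complex.add_re, Complex.one_re, Complex.add_im, Complex.one_im]
        nlinarith
      have h4 : (a : ℂ) * b = 1 := by exact_mod_cast hab
      have h5 : (a : ℂ) + b = 3 := by exact_mod_cast hab2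
      have h6 : ((C (1 : ℂ) * X + C (a : ℂ)) * (C (1 : ℂ) * X + C (b : ℂ))).eval w
          = w * ((3 + 2 * w.re : ℝ) : ℂ) := by
        have h7 : w * (starRingEnd ℂ) w = 1 := by
          rw [Complex.mul_conj, Complex.normSq_eq_norm_sq, hw1]; norm_num
        have h8 : ((3 + 2 * w.re : ℝ) : ℂ) = 3 + (w + (starRingEnd ℂ) w) := by
          rw [Complex.add_conj]; push_cast; ring
        rw [h8]
        simp only [eval_mul, eval_add, eval_C, eval_X]
        linear_combination h4 + w * h5 - h7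
      have h9 : -1 ≤ w.re := by nlinarith [sq_nonneg w.im]
      rw [h6, norm_mul, hw1, one_mul, Complex.norm_real, Real.norm_eq_abs,
        abs_of_pos (by linarith), h3]
      ring
    simp only
    rw [e1, e2, Real.log_rpow (by positivity), smul_eq_mul]
  have h3 : KT (1 / 2) = a ^ (1 / 2 : ℝ) := by
    apply Real.log_injOn_pos (KT_pos _) (show a ^ (1 / 2 : ℝ) ∈ Set.Ioi 0 from by
      have : 0 < a := by linarith
      exact Real.rpow_pos_of_pos this _)
    rw [h2, Real.log_rpow (by linarith)]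
  rw [h3, ← Real.sqrt_eq_rpow]
  have h4 : a = ((1 + √5) / 2) ^ 2 := by rw [ha]; nlinarith
  rw [h4, Real.sqrt_sq (by positivity)]

end Pool.Agent.Y83.BF
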